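import Pool.Agent.H41.CP.Stmts

/-!
# Discharging
-/

set_option autoImplicit false

namespace Pool.Agent.H599.CP

open Pool.Agent.H41.CP Finset

section

variable {V : Type} [DecidableEq V] (G : SimpleGraph V) [DecidableRel G.Adj] (W : Finset V)

theorem card_nb_filter (p : V → Prop) [DecidablePred p] (v : V) :
    ((nb G W v).filter p).card = ∑ u ∈ W, if G.Adj v u ∧ p u then 1 else 0 := by
  unfold nb
  rw [Finset.filter_filter, Finset.card_filter]

theorem double : ∑ v ∈ W, (if dg G W v = 4 then ((nb G W v).filter fun u => 6 ≤ dg G W u).card else 0) =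
    ∑ v ∈ W, (if 6 ≤ dg G W v then ((nb G W v).filter fun u => dg G W u = 4).card else 0) := by
  have h1 : ∀ v ∈ W, (if dg G W v = 4 then ((nb G W v).filter fun u => 6 ≤ dg G W u).card else 0) =
      ∑ u ∈ W, if dg G W v = 4 ∧ G.Adj v u ∧ 6 ≤ dg G W u then 1 else 0 := by
    intro v _
    by_cases hv : dg G W v = 4
    · rw [if_pos hv, card_nb_filter]
      refine Finset.sum_congr rfl fun u _ => ?_
      by_cases hu : G.Adj v u ∧ 6 ≤ dg G W u
      · rw [if_pos hu, if_pos ⟨hv, hu⟩]
      · rw [if_neg hu, if_neg fun h => hu h.2]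
    · rw [if_neg hv]
      symm
      exact Finset.sum_eq_zero fun u _ => if_neg fun h => hv h.1
  have h2 : ∀ u ∈ W, (if 6 ≤ dg G W u then ((nb G W u).filter fun v => dg G W v = 4).card else 0) =
      ∑ v ∈ W, if dg G W v = 4 ∧ G.Adj v u ∧ 6 ≤ dg G W u then 1 else 0 := by
    intro u _
    by_cases hu : 6 ≤ dg G W u
    · rw [if_pos hu, card_nb_filter]
      refine Finset.sum_congr rfl fun v _ => ?_
      by_cases hv : G.Adj u v ∧ dg G W v = 4
      · rw [if_pos hv, if_pos ⟨hv.2, hv.1.symm, hu⟩]
      · rw [if_neg hv, if_neg fun h => hv ⟨h.2.1.symm, h.1⟩]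
    · rw [if_neg hu]
      symm
      exact Finset.sum_eq_zero fun v _ => if_neg fun h => hu h.2.2
  rw [Finset.sum_congr rfl h1, Finset.sum_congr rfl h2, Finset.sum_comm]

end

theorem dis : S_DIS := by
  intro V _ G _ W hlt
  by_contra hcon
  push Not at hcon
  obtain ⟨c3, c4, c5, c6, c7⟩ := hcon
  -- charge at every vertex
  have charge : ∀ v ∈ W,
      15 + (if 6 ≤ dg G W v then ((nb G W v).filter fun u => dg G W u = 4).card else 0) ≤
      3 * dg G W v +
        (if dg G W v = 4 then ((nb G W v).filter fun u => 6 ≤ dg G W u).card else 0) := by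
    intro v hv
    have hd := c3 v hv
    have hle : ((nb G W v).filter fun u => dg G W u = 4).card ≤ dg G W v :=
      Finset.card_filter_le _ _
    rcases Nat.lt_or_ge (dg G W v) 5 with h5 | h5
    · have h4 : dg G W v = 4 := by omega
      rw [if_neg (by omega), if_pos h4]
      -- at least three neighbours of degree at least six
      have hsplit : (nb G W v).card =
          ((nb G W v).filter fun u => 6 ≤ dg G W u).card +
          ((nb G W v).filter fun u => ¬ 6 ≤ dg G W u).card :=
        (Finset.card_filter_add_card_filter_not (s := nb G W v) (fun u => 6 ≤ dg G W u)).symm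
      have hone : ((nb G W v).filter fun u => ¬ 6 ≤ dg G W u).card ≤ 1 := by
        rw [Finset.card_le_one]
        intro a ha b hb
        rw [Finset.mem_filter] at ha hb
        unfold nb at ha hb
        rw [Finset.mem_filter] at ha hb
        obtain ⟨⟨haW, haA⟩, ha6⟩ := ha
        obtain ⟨⟨hbW, hbA⟩, hb6⟩ := hb
        have ha3 := c3 a haW
        have hb3 := c3 b hbW
        have ha4 : dg G W a ≠ 4 := c4 v hv a haW haA h4
        have hb4 : dg G W b ≠ 4 := c4 v hv b hbW hbA h4
        by_contra hab
        exact c5 v hv h4 a haW b hbW hab haA hbA (by omega) (by omega)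
      have h4' : (nb G W v).card = 4 := h4
      omega
    · rw [if_neg (show ¬ dg G W v = 4 by omega)]
      by_cases h6 : 6 ≤ dg G W v
      · rw [if_pos h6]
        by_cases e6 : dg G W v = 6
        · have := c6 v hv e6
          omega
        · by_cases e7 : dg G W v = 7
          · have := c7 v hv e7
            omega
          · omega
      · rw [if_neg h6]
        omega
  have hsum := Finset.sum_le_sum charge
  rw [Finset.sum_add_distrib, Finset.sum_add_distrib, double G W, Finset.sum_const, smul_eq_mul,
    ← Finset.mul_sum] at hsum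
  omega

end Pool.Agent.H599.CP
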